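import Pool.Agent.Helper47.EV.M_SURV
import Pool.Agent.Helper57.EV.M_WM
import Pool.Agent.Helper1.EV.M_GR
import Pool.Agent.Helper86.EV.M_HZ
import Pool.Agent.Helper67.EV.M_DI
import Pool.Agent.Helper27.EV.M_U
import Pool.Agent.Helper33.EV.M_UG
import Pool.Agent.Helper77.EV.M_WK
import Pool.Agent.Helper43.EV.M_WG
import Pool.Agent.Helper71.EV.M_TA
import Pool.Agent.Helper89.EV.M_RH
import Pool.Agent.Helper38.EV.M_INF
import Pool.Agent.Helper81.EV.M_PATH
import Pool.Agent.Helper3.EV.M_RT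
import Pool.Agent.Helper84.EV.M_NR
import Pool.Agent.Helper13.EV.M_AAP
import Pool.Agent.Helper22.EV.M_PHI
import Pool.Agent.Helper69.EV.M_SH
import Pool.Agent.Helper94.EV.M_SEL
import Pool.Agent.Helper92.EV.M_RA
import Pool.Agent.Helper52.EV.M_COR
import Pool.Agent.Helper99.EV.M_EX
import Pool.Agent.Helper90.EV.M_TW
import Pool.Agent.Helper75.EV.M_POS

/-!
# Project EV: all modules

Every statement of `Pool/Agent/Helper65/EV/St.lean` is proved.
-/

set_option autoImplicit false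

universe u

namespace Pool.Agent.Helper65.EV

theorem tSURV : hSURV := Pool.Agent.Helper47.EV.hSURV

theorem tWM : WM := Pool.Agent.Helper57.EV.hWM

theorem tGR : hGR := Pool.Agent.Helper1.EV.hGR

theorem tHZ : hHZ := Pool.Agent.Helper86.EV.hHZ

theorem tDI : hDI := Pool.Agent.Helper67.EV.hDI tSURV tWM tHZ

theorem tU : hU := Pool.Agent.Helper27.EV.hU

theorem tUG : hUG := Pool.Agent.Helper33.EV.hUG tU

theorem tWK : hWK := Pool.Agent.Helper77.EV.hWK

theorem tWG : hWG := Pool.Agent.Helper43.EV.hWG tUG tWK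

theorem tTA : hTA := Pool.Agent.Helper71.EV.hTA tWM tGR tWG

theorem tRH : hRH := Pool.Agent.Helper89.EV.hRH

theorem tINF : hINF.{u} := Pool.Agent.Helper38.EV.hINF

theorem tPATH : hPATH := Pool.Agent.Helper81.EV.hPATH

theorem tRT : hRT := Pool.Agent.Helper3.EV.hRT

theorem tNR : hNR.{u} := Pool.Agent.Helper84.EV.hNR tDI tTA tRH tINF tPATH

theorem tAAP : AAP := Pool.Agent.Helper13.EV.hAAP

theorem tPHI : hPHI := Pool.Agent.Helper22.EV.hPHI

theorem tSH : SH := Pool.Agent.Helper69.EV.hSH tAAP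

theorem tSEL : hSEL := Pool.Agent.Helper94.EV.hSEL

theorem tRA : hRA := Pool.Agent.Helper92.EV.hRA tAAP tPHI tSH tSEL

theorem tCOR : hCOR := Pool.Agent.Helper52.EV.hCOR

theorem tEX : EX.{u} := Pool.Agent.Helper99.EV.hEX

theorem tTW : hTW.{u} := Pool.Agent.Helper90.EV.hTW tEX

theorem tPOS : hPOS.{u} := Pool.Agent.Helper75.EV.hPOS tNR tRA tRT tTW

end Pool.Agent.Helper65.EV
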