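import Pool.Agent.Helper84.Eve.NoEves
import Pool.Agent.Helper84.Eve.First

/-!
# Project EV: when does every initial type get a positive frequency?  Definitions and statements
-/

set_option autoImplicit false

open MeasureTheory ProbabilityTheory Set Filter
open scoped ENNReal Topology
open Pool.Agent.Helper84.Eve

namespace Pool.Agent.Helper65.EV

/-! ### Definitions -/

/-- the followed individual is never the parent -/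
def nrep : List (Finset ℕ) → ℕ → Prop
  | [], _ => True
  | κ :: l, a => ¬ IsLeast (κ : Set ℕ) a ∧ nrep l (pos κ a)

/-- accumulated hazard along the positions -/
noncomputable def haz (ρ : ℕ → ℝ≥0∞) : List (Finset ℕ) → ℕ → ℝ≥0∞
  | [], _ => 0
  | κ :: l, a => ρ a + haz ρ l (pos κ a)

/-- truncated logarithm of a level -/
noncomputable def tl (s : ℝ) (a : ℕ) : ℝ := min (Real.log (a + 1)) s

/-- truncated logarithmic moment -/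
noncomputable def AA (Λ : Measure ℝ) (s : ℝ) : ℝ≥0∞ :=
  ∫⁻ u, ENNReal.ofReal (min (-Real.log (1 - u)) s) ∂(nu Λ)

/-- the criterion integral -/
noncomputable def JJ (Λ : Measure ℝ) : ℝ≥0∞ :=
  ∫⁻ u in Ioc 0 (1 / 2), ENNReal.ofReal (u * -Real.log u) / AA Λ (-Real.log u) ∂(nu Λ)

/-- lower bound of the weight of a reproduction from level `a` -/
noncomputable def rh (Λ : Measure ℝ) (n : ℕ) (h : ℝ) (a : ℕ) : ℝ≥0∞ :=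
  if a < n then ENNReal.ofReal (Real.exp (-(h * (wS Λ n {K | K.Nonempty}).toReal))) *
    (ENNReal.ofReal h * phi Λ a) else 0

/-! ### Statements: the discrete chain -/

open Classical in
def hSURV : Prop := ∀ (w : Finset ℕ → ℝ≥0∞) (n : ℕ) (ρ : ℕ → ℝ≥0∞),
  ∑ κ ∈ (Finset.range n).powerset, w κ ≤ 1 →
  (∀ a, ρ a ≤ ∑ κ ∈ (Finset.range n).powerset.filter (fun κ : Finset ℕ => IsLeast (κ : Set ℕ) a), w κ) →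
  ∀ m a, wsum w n m ({l | nrep l a}.indicator fun l => 1 + haz ρ l a) ≤ 1

structure WM : Prop where
  const_le : ∀ (w : Finset ℕ → ℝ≥0∞) (n : ℕ), ∑ κ ∈ (Finset.range n).powerset, w κ ≤ 1 →
    ∀ (m : ℕ) (c : ℝ≥0∞), wsum w n m (fun _ => c) ≤ c
  mul : ∀ (w : Finset ℕ → ℝ≥0∞) (n m : ℕ) (c : ℝ≥0∞) (F : List (Finset ℕ) → ℝ≥0∞),
    wsum w n m (fun l => c * F l) = c * wsum w n m F
  mono : ∀ (w : Finset ℕ → ℝ≥0∞) (n m : ℕ) (F G : List (Finset ℕ) → ℝ≥0∞),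
    (∀ l, l.length = m → F l ≤ G l) → wsum w n m F ≤ wsum w n m G
  take_le : ∀ (w : Finset ℕ → ℝ≥0∞) (n : ℕ), ∑ κ ∈ (Finset.range n).powerset, w κ ≤ 1 →
    ∀ (k k' : ℕ) (F : List (Finset ℕ) → ℝ≥0∞),
      wsum w n (k + k') (fun l => F (l.take k)) ≤ wsum w n k F
  markov : ∀ (w : Finset ℕ → ℝ≥0∞) (n m : ℕ) (S : Set (List (Finset ℕ))) (c : ℝ≥0∞)
    (F : List (Finset ℕ) → ℝ≥0∞), (∀ l, l.length = m → l ∈ S → c ≤ F l) →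
      c * wsum w n m (S.indicator 1) ≤ wsum w n m F

def hGR : Prop := ∀ (w : Finset ℕ → ℝ≥0∞) (n : ℕ), ∑ κ ∈ (Finset.range n).powerset, w κ ≤ 1 →
  ∀ (G : ℕ → ℝ≥0∞) (c : ℝ≥0∞),
  (∀ a, ∑ κ ∈ (Finset.range n).powerset, w κ * G (pos κ a) ≤ G a + c) →
  ∀ m a, wsum w n m (fun l => G (posl l a)) ≤ G a + m * c

open Classical in
def hHZ : Prop := ∀ (ρ : ℕ → ℝ≥0∞), Antitone ρ → ∀ (M : ℕ → ℕ), Monotone M → M 0 = 0 →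
  ∀ (b : ℕ → ℕ) (J a : ℕ) (l : List (Finset ℕ)), M J ≤ l.length →
    ∑ j ∈ Finset.range J, ((M (j + 1) - M j : ℕ) : ℝ≥0∞) *
      (if posl (l.take (M (j + 1))) a ≤ b j then ρ (b j) else 0) ≤ haz ρ l a

open Classical in
def hDI : Prop := ∀ (w : Finset ℕ → ℝ≥0∞) (n : ℕ) (ρ : ℕ → ℝ≥0∞),
  ∑ κ ∈ (Finset.range n).powerset, w κ ≤ 1 →
  (∀ a, ρ a ≤ ∑ κ ∈ (Finset.range n).powerset.filter (fun κ : Finset ℕ => IsLeast (κ : Set ℕ) a), w κ) →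
  Antitone ρ → ∀ (M : ℕ → ℕ), Monotone M → M 0 = 0 → ∀ (b : ℕ → ℕ) (J a : ℕ) (ε : ℝ≥0∞),
  (∀ j < J, wsum w n (M (j + 1)) ({l | b j < posl l a}.indicator 1) ≤ ε) →
  ∀ H : ℝ≥0∞, H ≠ 0 → H ≤ ∑ j ∈ Finset.range J, ((M (j + 1) - M j : ℕ) : ℝ≥0∞) * ρ (b j) →
    wsum w n (M J) ({l | nrep l a}.indicator 1) ≤ 2 * ε + 2 / H

/-! ### Statements: growth of the level -/

def hU : Prop := ∀ u : ℝ, 0 ≤ u → u < 1 → ∀ n a : ℕ,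
  ∑ κ ∈ (Finset.range n).powerset, u ^ κ.card * (1 - u) ^ (n - κ.card) * ((pos κ a : ℝ) + 1) ≤
    ((a : ℝ) + 1) / (1 - u)

def hUG : Prop := ∀ u : ℝ, 0 ≤ u → u < 1 → ∀ s : ℝ, 0 ≤ s → ∀ n a : ℕ,
  ∑ κ ∈ (Finset.range n).powerset, u ^ κ.card * (1 - u) ^ (n - κ.card) * tl s (pos κ a) ≤
    tl s a + min (-Real.log (1 - u)) s

def hWK : Prop := ∀ Λ : Measure ℝ, Λ (Icc 0 1)ᶜ = 0 → ∀ n : ℕ, ∀ κ ∈ (Finset.range n).powerset,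
  wS Λ n {κ} = ∫⁻ u, ENNReal.ofReal u ^ κ.card * ENNReal.ofReal (1 - u) ^ (n - κ.card) ∂(nu Λ)

def hWG : Prop := ∀ Λ : Measure ℝ, Λ (Icc 0 1)ᶜ = 0 → Λ {1} = 0 → ∀ (n : ℕ) (h s : ℝ) (a : ℕ),
  0 ≤ h → 0 ≤ s → wS Λ n {K | K.Nonempty} ≠ ∞ →
  ∑ κ ∈ (Finset.range n).powerset, wt Λ n h κ * ENNReal.ofReal (tl s (pos κ a)) ≤
    ENNReal.ofReal (tl s a) + ENNReal.ofReal h * AA Λ s

def hTA : Prop := ∀ Λ : Measure ℝ, Λ (Icc 0 1)ᶜ = 0 → Λ {1} = 0 → ∀ (n m : ℕ) (h s : ℝ) (a b : ℕ),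
  0 ≤ h → 0 < s → s ≤ Real.log (b + 1) → wS Λ n {K | K.Nonempty} ≠ ∞ →
  wsum (wt Λ n h) n m ({l | b < posl l a}.indicator 1) ≤
    (ENNReal.ofReal (Real.log (a + 1)) + m * (ENNReal.ofReal h * AA Λ s)) / ENNReal.ofReal s

open Classical in
def hRH : Prop := ∀ Λ : Measure ℝ, Λ (Icc 0 1)ᶜ = 0 → ∀ (n : ℕ) (h : ℝ), Antitone (rh Λ n h) ∧
  ∀ a, rh Λ n h a ≤
    ∑ κ ∈ (Finset.range n).powerset.filter (fun κ : Finset ℕ => IsLeast (κ : Set ℕ) a), wt Λ n h κ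

/-! ### Statements: paths -/

def hINF.{u} : Prop := ∀ {Λ : Measure ℝ}, DustRegime Λ → ∀ {Ω : Type u} [MeasurableSpace Ω]
  {P : Measure Ω} [IsProbabilityMeasure P] (L : Lookdown P Λ),
  ∀ᵐ ω ∂P, ∀ e ∈ L.N ω, {j | Part e j}.Infinite

def hPATH : Prop := ∀ {A : Set Ev} {x : ℝ → ℕ → ℝ}, DynOK A x → GoodA A →
  (∀ e ∈ A, {j | Part e j}.Infinite) → ∀ {n m : ℕ} {h : ℝ}, 0 ≤ h → Good A n m h → ∀ a : ℕ,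
  (∀ i, x 0 i = x 0 a → i = a) →
  (∀ t, 0 ≤ t → ∀ i j, x t i = x 0 a → x t j = x 0 a → i = j) → nrep (lst A n m h) a

def hRT : Prop := ∀ {A : Set Ev} {x : ℝ → ℕ → ℝ}, DynOK A x → GoodA A → ∀ t : ℝ, 0 ≤ t →
  ∀ k : ℕ, ∃ q : ℚ, t < (q : ℝ) ∧ ∀ i ≤ k, x q i = x t i

def hNR.{u} : Prop := ∀ {Λ : Measure ℝ}, DustRegime Λ → Λ {1} = 0 → ∀ (a : ℕ) (ε H : ℝ≥0∞),
  H ≠ 0 → H ≠ ∞ → ∀ (J : ℕ) (t b : ℕ → ℕ) (s : ℕ → ℝ), Monotone t → t 0 = 0 →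
  (∀ j, 0 < s j ∧ s j ≤ Real.log (b j + 1)) →
  (∀ j < J, (ENNReal.ofReal (Real.log (a + 1)) + t (j + 1) * AA Λ (s j)) / ENNReal.ofReal (s j) ≤ ε) →
  H ≤ ∑ j ∈ Finset.range J, ((t (j + 1) - t j : ℕ) : ℝ≥0∞) * phi Λ (b j) →
  ∀ {Ω : Type u} [MeasurableSpace Ω] {P : Measure Ω} [IsProbabilityMeasure P] (L : Lookdown P Λ),
  P {ω | ∀ t, 0 ≤ t → ∀ i j, L.ξ t i ω = L.ξ 0 a ω → L.ξ t j ω = L.ξ 0 a ω → i = j} ≤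
    2 * ε + 2 / H

/-! ### Statements: real analysis -/

structure AAP : Prop where
  ne_top : ∀ {Λ : Measure ℝ}, DustRegime Λ → ∀ s : ℝ, AA Λ s ≠ ∞
  ne_zero : ∀ {Λ : Measure ℝ}, DustRegime Λ → ∀ s : ℝ, 0 < s → AA Λ s ≠ 0
  mono : ∀ Λ : Measure ℝ, Monotone (AA Λ)
  scale : ∀ Λ : Measure ℝ, ∀ s s' : ℝ, 0 < s → s ≤ s' →
    AA Λ s' * ENNReal.ofReal s ≤ AA Λ s * ENNReal.ofReal s'

def hPHI : Prop := ∀ {Λ : Measure ℝ}, DustRegime Λ → ∀ s : ℝ, 1 ≤ s →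
  ∫⁻ u in Ioc 0 (Real.exp (-s)), ENNReal.ofReal u ∂(nu Λ) ≤ 8 * phi Λ ⌈Real.exp s⌉₊

/-- mass of a shell -/
noncomputable def mu (Λ : Measure ℝ) (i : ℕ) : ℝ≥0∞ :=
  ∫⁻ u in Ioc (Real.exp (-(2 : ℝ) ^ (i + 1))) (Real.exp (-(2 : ℝ) ^ i)), ENNReal.ofReal u ∂(nu Λ)

/-- time scale -/
noncomputable def tau (Λ : Measure ℝ) (i : ℕ) : ℝ≥0∞ :=
  ENNReal.ofReal ((2 : ℝ) ^ i) / AA Λ ((2 : ℝ) ^ i)

structure SH : Prop where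
  sum_mu : ∀ {Λ : Measure ℝ}, DustRegime Λ → ∀ j : ℕ,
    ∑' i, mu Λ (j + i) = ∫⁻ u in Ioc 0 (Real.exp (-(2 : ℝ) ^ j)), ENNReal.ofReal u ∂(nu Λ)
  sum_top : ∀ {Λ : Measure ℝ}, DustRegime Λ → JJ Λ = ∞ → ∑' i, mu Λ i * tau Λ i = ∞
  tau_mono : ∀ {Λ : Measure ℝ}, DustRegime Λ → Monotone (tau Λ)
  tau_ne_top : ∀ {Λ : Measure ℝ}, DustRegime Λ → ∀ i, tau Λ i ≠ ∞

def hSEL : Prop := ∀ (μ τ : ℕ → ℝ≥0∞), Monotone τ → (∀ i, τ i ≠ ∞) → ∑' i, μ i ≠ ∞ →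
  ∑' i, μ i * τ i = ∞ → ∀ (ε : ℝ≥0∞) (j0 : ℕ) (H : ℝ≥0∞), ε ≠ 0 → H ≠ ∞ → ∃ (J : ℕ) (t : ℕ → ℕ),
    Monotone t ∧ t 0 = 0 ∧ (∀ j, (t (j + 1) : ℝ≥0∞) ≤ ε * τ (j0 + j)) ∧
    H ≤ ∑ j ∈ Finset.range J, ((t (j + 1) - t j : ℕ) : ℝ≥0∞) * ∑' i, μ (j0 + j + i)

def hRA : Prop := ∀ {Λ : Measure ℝ}, DustRegime Λ → JJ Λ = ∞ → ∀ (a : ℕ) (ε H : ℝ≥0∞),
  ε ≠ 0 → H ≠ ∞ → ∃ (J : ℕ) (t b : ℕ → ℕ) (s : ℕ → ℝ), Monotone t ∧ t 0 = 0 ∧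
  (∀ j, 0 < s j ∧ s j ≤ Real.log (b j + 1)) ∧
  (∀ j < J, (ENNReal.ofReal (Real.log (a + 1)) + t (j + 1) * AA Λ (s j)) / ENNReal.ofReal (s j) ≤ ε) ∧
  H ≤ ∑ j ∈ Finset.range J, ((t (j + 1) - t j : ℕ) : ℝ≥0∞) * phi Λ (b j)

def hCOR : Prop := ∀ {Λ : Measure ℝ}, DustRegime Λ →
  ∫⁻ u, ENNReal.ofReal (-Real.log (1 - u)) ∂(nu Λ) ≠ ∞ →
  ∫⁻ u in Ico 0 1, ENNReal.ofReal (-(u * Real.log u)) ∂(nu Λ) = ∞ → JJ Λ = ∞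

/-! ### Statements: fixed times -/

structure EX.{u} : Prop where
  exch : ∀ {Λ : Measure ℝ}, DustRegime Λ → ∀ {Ω : Type u} [MeasurableSpace Ω] {P : Measure Ω}
    [IsProbabilityMeasure P] (L : Lookdown P Λ) (T : ℝ), 0 ≤ T → ∀ (n : ℕ) (B : Fin n → Set ℝ),
    (∀ i, MeasurableSet (B i)) → ∀ σ : Equiv.Perm (Fin n),
    P {ω | ∀ i, L.ξ T (σ i) ω ∈ B i} ≤ P {ω | ∀ i : Fin n, L.ξ T i ω ∈ B i}
  meas : ∀ {Λ : Measure ℝ}, DustRegime Λ → ∀ {Ω : Type u} [MeasurableSpace Ω] {P : Measure Ω}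
    [IsProbabilityMeasure P] (L : Lookdown P Λ) (T : ℝ), 0 ≤ T → ∀ i, AEMeasurable (L.ξ T i) P

def hTW.{u} : Prop := ∀ {Λ : Measure ℝ}, DustRegime Λ → ∀ {Ω : Type u} [MeasurableSpace Ω]
  {P : Measure Ω} [IsProbabilityMeasure P] (L : Lookdown P Λ) (T : ℝ), 0 ≤ T →
  ∀ ρ : Ω → Measure ℝ, (∀ᵐ ω ∂P, EmpLimit (fun i => L.ξ T i ω) (ρ ω)) →
  ∀ᵐ ω ∂P, ∀ i j, i ≠ j → L.ξ T i ω = L.ξ T j ω → 0 < ρ ω {L.ξ T i ω}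

/-! ### The positive half -/

def hPOS.{u} : Prop := ∀ {Λ : Measure ℝ}, DustRegime Λ → Λ {1} = 0 → JJ Λ = ∞ →
  ∀ {Ω : Type u} [MeasurableSpace Ω] {P : Measure Ω} [IsProbabilityMeasure P] (L : Lookdown P Λ)
  (ρ : ℝ → Ω → Measure ℝ), (∀ t, 0 ≤ t → ∀ᵐ ω ∂P, EmpLimit (fun i => L.ξ t i ω) (ρ t ω)) →
  ∀ᵐ ω ∂P, ∀ i, ∃ t, 0 ≤ t ∧ 0 < ρ t ω {L.ξ 0 i ω}

end Pool.Agent.Helper65.EV
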